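import Pool.Agent.H.MP_8f2c22_lc.Defs

namespace Pool.Agent.H.MP_8f2c22_lc

open SimpleGraph

variable {V V' : Type}

structure Sol (A : V → V → Prop) (M : V → V → Set V) : Prop where
  sym : ∀ x y, A x y → M x y = M y x
  mem : ∀ x y, A x y → x ∈ M x y
  cl : ∀ x y p q, A x y → p ∈ M x y → q ∈ M x y → p ≠ q → A p q ∧ M p q ⊆ M x y
  tri : ∀ x y z, A x y → A y z → A z x → ∃ p, p ∈ M x y ∧ p ∈ M y z ∧ p ∈ M z x

theorem ex_max {W : Type} [Finite W] (G : SimpleGraph W) {S : Set W} (h : G.IsClique S) :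
    ∃ T, S ⊆ T ∧ Maximal G.IsClique T := Finite.exists_le_maximal h

theorem rs1 {H : SimpleGraph V} (h : IsCliqueGraph H) : Nonempty V ∧ ∃ M, Sol H.Adj M := by
  obtain ⟨W, _, G, ⟨φ⟩⟩ := h
  have ad : ∀ x y, H.Adj x y ↔ x ≠ y ∧ ((φ x).1 ∩ (φ y).1).Nonempty := fun x y => by
    rw [← φ.map_adj_iff]; simp [cliqueGraph, Set.inter_comm]
  obtain ⟨T, -, hT⟩ := ex_max G (S := ∅) (by simp)
  refine ⟨⟨φ.symm ⟨T, hT⟩⟩, fun x y => {v | (φ x).1 ∩ (φ y).1 ⊆ (φ v).1}, fun x y _ => by simp [Set.inter_comm],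
    fun x y _ => Set.inter_subset_left, fun x y p q a b c d => ⟨(ad _ _).2 ⟨d, ((ad _ _).1 a).2.mono
      (Set.subset_inter b c)⟩, fun v k => (Set.subset_inter b c).trans k⟩, fun x y z _ _ _ => ?_⟩
  obtain ⟨T, h1, hT⟩ := ex_max G (S := (φ x).1 ∩ (φ y).1 ∪ (φ y).1 ∩ (φ z).1 ∪ (φ z).1 ∩ (φ x).1) fun u a v b c => by
    have := @(φ x).2.1 u
    have := @(φ y).2.1 u
    have := @(φ z).2.1 u
    grind
  refine ⟨φ.symm ⟨T, hT⟩, ?_, ?_, ?_⟩ <;> simp only [Set.mem_ofPred_eq, RelIso.apply_symm_apply] <;> grind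

theorem rs2 [Finite V] [Nonempty V] {H : SimpleGraph V} {M} (h : Sol H.Adj M) : IsCliqueGraph H := by
  classical
  have : Finite H.Dart := .of_injective _ Dart.toProd_injective
  let F : V ⊕ H.Dart → Set V := Sum.elim (fun v => {v}) fun d => M d.fst d.snd
  have cl : ∀ a, ∀ p ∈ F a, ∀ q ∈ F a, p ≠ q → H.Adj p q ∧ M p q ⊆ F a := by
    rintro (v | d) p a q b c
    · exact absurd (a.trans b.symm) c
    · exact h.cl _ _ _ _ d.adj a b c
  have ne : ∀ a, (F a).Nonempty := by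
    rintro (v | d)
    · exact ⟨v, rfl⟩
    · exact ⟨_, h.mem _ _ d.adj⟩
  have helly : ∀ s : Finset (V ⊕ H.Dart), (∀ a ∈ s, ∀ b ∈ s, (F a ∩ F b).Nonempty) → ∃ v, ∀ a ∈ s, v ∈ F a := fun s => by
    induction s using Finset.strongInduction with
    | H s ih =>
      intro hs
      by_cases k : 2 < s.card
      · obtain ⟨a, b, c, ha, hb, hc, ab, ac, bc⟩ := Finset.two_lt_card_iff.1 k
        have : ∀ a ∈ s, ∃ v, ∀ b ∈ s, b ≠ a → v ∈ F b := fun a ha => by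
          obtain ⟨v, hv⟩ := ih _ (Finset.erase_ssubset ha) fun x i y j =>
            hs x (Finset.mem_of_mem_erase i) y (Finset.mem_of_mem_erase j)
          exact ⟨v, fun b i j => hv b (Finset.mem_erase.2 ⟨j, i⟩)⟩
        obtain ⟨x, hx⟩ := this a ha
        obtain ⟨y, hy⟩ := this b hb
        obtain ⟨z, hz⟩ := this c hc
        by_cases i : x ∈ F a
        · exact ⟨x, by grind⟩
        by_cases j : y ∈ F b
        · exact ⟨y, by grind⟩
        by_cases l : z ∈ F c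
        · exact ⟨z, by grind⟩
        have xy : x ≠ y := by grind
        have yz : y ≠ z := by grind
        have zx : z ≠ x := by grind
        obtain ⟨p, p1, p2, p3⟩ := h.tri x y z (cl c _ (by grind) _ (by grind) xy).1 (cl a _ (by grind) _ (by grind) yz).1
          (cl b _ (by grind) _ (by grind) zx).1
        refine ⟨p, fun d hd => ?_⟩
        by_cases e : d = a
        · exact (cl d _ (by grind) _ (by grind) yz).2 p2
        by_cases e' : d = b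
        · exact (cl d _ (by grind) _ (by grind) zx).2 p3
        exact (cl d _ (by grind) _ (by grind) xy).2 p1
      · rcases (by omega : s.card = 0 ∨ s.card = 1 ∨ s.card = 2) with k | k | k
        · simp [Finset.card_eq_zero.1 k]
        · obtain ⟨a, rfl⟩ := Finset.card_eq_one.1 k
          simpa [Set.Nonempty] using ne a
        · obtain ⟨a, b, -, rfl⟩ := Finset.card_eq_two.1 k
          simpa [Set.Nonempty] using hs a (by simp) b (by simp)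
  let G : SimpleGraph (V ⊕ H.Dart) := fromRel fun a b => (F a ∩ F b).Nonempty
  have ad : ∀ a b, G.Adj a b ↔ a ≠ b ∧ (F a ∩ F b).Nonempty := fun a b => by simp [G, Set.inter_comm]
  have c1 : ∀ v, G.IsClique {a | v ∈ F a} := fun v a i b j k => (ad _ _).2 ⟨k, v, i, j⟩
  have c2 : ∀ v, Maximal G.IsClique {a | v ∈ F a} := fun v => ⟨c1 v, fun S hS k a ha => by
    by_cases e : a = .inl v
    · exact e ▸ rfl
    · obtain ⟨-, u, i, j⟩ := (ad _ _).1 (hS ha (k (show Sum.inl v ∈ {a | v ∈ F a} from rfl)) e)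
      exact (show u = v from j) ▸ i⟩
  have inj : ∀ u v, {a | u ∈ F a} = {a | v ∈ F a} → u = v := fun u v e =>
    ((Set.ext_iff.1 e (.inl u)).1 rfl : v ∈ ({u} : Set V)).symm
  refine ⟨_, inferInstance, G, ⟨⟨Equiv.ofBijective (fun v => ⟨_, c2 v⟩) ⟨fun u v e => inj _ _ (congrArg Subtype.val e),
    fun ⟨S, hS⟩ => ?_⟩, fun {u v} => ?_⟩⟩⟩
  · obtain ⟨v, hv⟩ := helly S.toFinite.toFinset fun a i b j => by
      by_cases e : a = b
      · simpa [e] using ne b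
      · exact ((ad _ _).1 (hS.1 (by simpa using i) (by simpa using j) e)).2
    exact ⟨v, Subtype.ext (hS.eq_of_subset (c1 v) fun a i => hv a (by simpa using i)).symm⟩
  · simp only [cliqueGraph, Equiv.ofBijective_apply, fromRel_adj, ne_eq, Subtype.mk.injEq]
    refine ⟨fun ⟨i, j⟩ => ?_, fun i => ⟨fun e => i.ne (inj _ _ e), .inl ⟨.inr ⟨(u, v), i⟩, h.mem _ _ i, ?_⟩⟩⟩
    · rcases j with ⟨a, j, k⟩ | ⟨a, k, j⟩ <;> exact (cl a _ j _ k fun e => i (by rw [e])).1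
    · exact (h.sym _ _ i).ge (h.mem _ _ i.symm)

theorem sol_iff {A : V → V → Prop} {A' : V' → V' → Prop} {f : V → V'} (hf : Function.Injective f)
    (h1 : ∀ u v, A' (f u) (f v) ↔ A u v) (h2 : ∀ u v, A' u v → (∃ x, f x = u) ∧ ∃ y, f y = v) :
    (∃ M, Sol A M) ↔ ∃ M, Sol A' M := by
  refine ⟨fun ⟨M, h⟩ => ⟨fun x' y' => {v' | ∃ x y v, f x = x' ∧ f y = y' ∧ f v = v' ∧ v ∈ M x y}, ?_⟩,
    fun ⟨M, h⟩ => ⟨fun x y => f ⁻¹' M (f x) (f y), fun x y a => by rw [h.sym _ _ ((h1 _ _).2 a)],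
      fun x y a => h.mem _ _ ((h1 _ _).2 a), fun x y p q a b c d => ?_, fun x y z a b c => ?_⟩⟩
  · have e : ∀ x y v', (∃ x0 y0 v, f x0 = f x ∧ f y0 = f y ∧ f v = v' ∧ v ∈ M x0 y0) ↔ ∃ v, f v = v' ∧ v ∈ M x y :=
      fun x y v' => by simp [hf.eq_iff]
    refine ⟨fun x y a => ?_, fun x y a => ?_, fun x y p q a b c d => ?_, fun x y z a b c => ?_⟩ <;>
      obtain ⟨⟨x, rfl⟩, y, rfl⟩ := h2 _ _ a <;> rw [h1] at a
    · ext; simp only [Set.mem_ofPred_eq, e, h.sym _ _ a]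
    · exact (e _ _ _).2 ⟨x, rfl, h.mem _ _ a⟩
    · obtain ⟨p, rfl, b'⟩ := (e _ _ _).1 b
      obtain ⟨q, rfl, c'⟩ := (e _ _ _).1 c
      obtain ⟨i, j⟩ := h.cl _ _ _ _ a b' c' fun k => d (congrArg f k)
      refine ⟨(h1 _ _).2 i, fun v k => ?_⟩
      obtain ⟨v, rfl, k'⟩ := (e _ _ _).1 k
      exact (e _ _ _).2 ⟨v, rfl, j k'⟩
    · obtain ⟨-, z, rfl⟩ := h2 _ _ b
      obtain ⟨p, i, j, k⟩ := h.tri x y z a ((h1 _ _).1 b) ((h1 _ _).1 c)
      exact ⟨f p, (e _ _ _).2 ⟨p, rfl, i⟩, (e _ _ _).2 ⟨p, rfl, j⟩, (e _ _ _).2 ⟨p, rfl, k⟩⟩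
  · obtain ⟨i, j⟩ := h.cl _ _ _ _ ((h1 _ _).2 a) b c (hf.ne d)
    exact ⟨(h1 _ _).1 i, fun v k => j k⟩
  · obtain ⟨p, i, j, k⟩ := h.tri _ _ _ ((h1 _ _).2 a) ((h1 _ _).2 b) ((h1 _ _).2 c)
    obtain ⟨p, rfl⟩ : ∃ q, f q = p := by
      by_cases e : f x = p
      · exact ⟨x, e⟩
      · exact (h2 _ _ (h.cl _ _ _ _ ((h1 _ _).2 a) (h.mem _ _ ((h1 _ _).2 a)) i e).1).2
    exact ⟨p, i, j, k⟩

end Pool.Agent.H.MP_8f2c22_lc
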