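import Pool.Agent.H.MP_8f2c22_lc.A

namespace Pool.Agent.H.MP_8f2c22_lc

open Relation

section
variable (A : ℕ → ℕ → Prop) (R : List ℕ) (K : List (List ℕ))

def Tg (x y z : ℕ) : Prop := A x y ∧ A y z ∧ A z x
def Lk (x y s : ℕ) : Prop := A x s ∧ A y s
def Cn (x y : ℕ) : Prop := ∃ p ∈ R, Lk A x y p ∧ ∀ s ∈ R, Lk A x y s → s = p ∨ A s p ∨ ∃ h ∈ R, Lk A x y h ∧ A s h ∧ A h p
def E1 (x y : ℕ) (a : List ℕ) : Prop := x ∈ a ∧ (∀ p ∈ a, ∀ q ∈ a, p = q ∨ A p q) ∧ (Cn A R x y ∨ ∀ p ∈ a, p = x ∨ p = y)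
def Q (a f : List ℕ) (z w : ℕ) : Prop := z ∈ a → w ∈ a → ∀ p ∈ f, p ∈ a
abbrev Tp := (ℕ × ℕ × ℕ) × List ℕ × List ℕ × List ℕ
def Rl (L : List Tp) (t : Tp) : Prop := Tg A t.1.1 t.1.2.1 t.1.2.2 ∧ E1 A R t.1.1 t.1.2.1 t.2.1 ∧
  Q t.2.1 t.2.2.1 t.1.2.2 t.1.2.2 ∧ (∃ p ∈ t.2.1, p ∈ t.2.2.1 ∧ p ∈ t.2.2.2) ∧
  ((t.1.2.1, t.1.2.2, t.1.1), t.2.2.1, t.2.2.2, t.2.1) ∈ L ∧ ((t.1.2.1, t.1.1, t.1.2.2), t.2.1, t.2.2.2, t.2.2.1) ∈ L ∧
  ∀ w ∈ R, A t.1.1 w → A t.1.2.1 w → A t.1.2.2 w → ∃ d ∈ K, ∃ e ∈ K, ∃ f ∈ K,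
    ((t.1.1, t.1.2.1, w), t.2.1, e, d) ∈ L ∧ ((t.1.2.1, t.1.2.2, w), t.2.2.1, f, e) ∈ L ∧
    ((t.1.2.2, t.1.1, w), t.2.2.2, d, f) ∈ L ∧ Q t.2.1 f t.1.2.2 w ∧ Q f t.2.1 t.1.1 t.1.2.1 ∧ Q t.2.2.1 d t.1.1 w ∧
    Q d t.2.2.1 t.1.2.1 t.1.2.2 ∧ Q t.2.2.2 e t.1.2.1 w ∧ Q e t.2.2.2 t.1.2.2 t.1.1
def Pth (W : ℕ → Prop) (x y z : ℕ) : ℕ → ℕ → Prop := ReflTransGen fun p q => A p q ∧ W q ∧ q ≠ x ∧ q ≠ y ∧ q ≠ z
structure Gd : Prop where
  sym : ∀ u v, A u v → A v u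
  irr : ∀ u, ¬ A u u
  mem : ∀ u v, A u v → u ∈ R
  sep : ∀ x y z c v u, Tg A x y z → A x c → A y c → A z c → A x v → A y v → A z v → c ≠ v →
    Pth A (· ≠ v) x y z c u → ¬ A v u
def In (L : List Tp) (μ : ℕ → ℕ → List ℕ) (x y z : ℕ) : Prop := ((x, y, z), μ x y, μ y z, μ z x) ∈ L
structure Iv (L : List Tp) (W : Finset ℕ) (μ : ℕ → ℕ → List ℕ) : Prop where
  sym : ∀ x y, μ x y = μ y x
  tri : ∀ x ∈ W, ∀ y ∈ W, ∀ z ∈ W, Tg A x y z → In L μ x y z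
  k4 : ∀ x ∈ W, ∀ y ∈ W, ∀ z ∈ W, ∀ w ∈ W, Tg A x y z → A x w → A y w → A z w → Q (μ x y) (μ z w) z w
  pth : ∀ x ∈ W, ∀ y ∈ W, ∀ z ∈ W, ∀ u ∈ W, Tg A x y z → u ≠ x → u ≠ y → u ≠ z →
    ∃ c ∈ W, A x c ∧ A y c ∧ A z c ∧ Pth A (· ∈ W) x y z c u
def Cl (W : Finset ℕ) : Prop := ∀ x ∈ W, ∀ y ∈ W, ∀ z ∈ W, ∀ v, Tg A x y z → A x v → A y v → A z v → v ∈ W
end

variable {A : ℕ → ℕ → Prop} {R : List ℕ} {K : List (List ℕ)} {L : List Tp} {W : Finset ℕ} {μ : ℕ → ℕ → List ℕ}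

theorem Pth.mono {W W' : ℕ → Prop} {x y z x' y' z' c u} (h : Pth A W x y z c u)
    (e : ∀ q, W q → q ≠ x → q ≠ y → q ≠ z → W' q ∧ q ≠ x' ∧ q ≠ y' ∧ q ≠ z') : Pth A W' x' y' z' c u :=
  ReflTransGen.mono (fun _ q k => ⟨k.1, e q k.2.1 k.2.2.1 k.2.2.2.1 k.2.2.2.2⟩) _ _ h

theorem in_rot (hL : ∀ t ∈ L, Rl A R K L t) {x y z} (h : In L μ x y z) : In L μ y z x := (hL _ h).2.2.2.2.1
theorem in_swap (hL : ∀ t ∈ L, Rl A R K L t) (hs : ∀ x y, μ x y = μ y x) {x y z} (h : In L μ x y z) : In L μ y x z := by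
  have := (hL _ h).2.2.2.2.2.1
  rwa [In, hs y x, hs x z, hs z y]

theorem Iv.ext (g : Gd A R) (hL : ∀ t ∈ L, Rl A R K L t) (h : Iv A L W μ) {x y z v} (hx : x ∈ W) (hy : y ∈ W) (hz : z ∈ W)
    (t : Tg A x y z) (a : A x v) (b : A y v) (c : A z v) (hv : v ∉ W) : ∃ μ, Iv A L (insert v W) μ := by
  have hs := g.sym
  have hi := g.irr
  have nb : ∀ u ∈ W, A v u → u = x ∨ u = y ∨ u = z := fun u hu k => by
    by_contra! ne
    obtain ⟨c', i, j, l, m, n⟩ := h.pth x hx y hy z hz u hu t ne.1 ne.2.1 ne.2.2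
    exact g.sep x y z c' v u t j l m a b c (by grind) (n.mono (by grind)) k
  obtain ⟨d, -, e, -, f, -, i1, i2, i3, q1, q2, q3, q4, q5, q6⟩ :=
    (hL _ (h.tri x hx y hy z hz t)).2.2.2.2.2.2 v (g.mem _ _ (hs _ _ a)) a b c
  dsimp only at i1 i2 i3 q1 q2 q3 q4 q5 q6
  have xy : x ≠ y := by unfold Tg at t; grind
  have yz : y ≠ z := by unfold Tg at t; grind
  have zx : z ≠ x := by unfold Tg at t; grind
  obtain ⟨ν, n1, n2, n3, n4, n5⟩ : ∃ ν : ℕ → ℕ → List ℕ, (∀ p q, ν p q = ν q p) ∧ (∀ p ∈ W, ∀ q ∈ W, ν p q = μ p q) ∧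
      ν x v = d ∧ ν y v = e ∧ ν z v = f :=
    ⟨fun p q => if p = v then (if q = x then d else if q = y then e else f) else if q = v then
      (if p = x then d else if p = y then e else f) else μ p q, fun p q => by have := h.sym p q; grind, by grind,
      by grind, by grind, by grind⟩
  subst n3 n4 n5
  simp only [← n2 x hx y hy, ← n2 y hy z hz, ← n2 z hz x hx] at i1 i2 i3 q1 q2 q3 q4 q5 q6
  have j1 : In L ν x y v := by rw [In, n1 v x]; exact i1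
  have j2 : In L ν y z v := by rw [In, n1 v y]; exact i2
  have j3 : In L ν z x v := by rw [In, n1 v z]; exact i3
  have j : ∀ p ∈ W, ∀ q ∈ W, A v p → A v q → A p q → In L ν p q v := fun p hp q hq k l m => by
    have := in_swap hL n1 j1
    have := in_swap hL n1 j2
    have := in_swap hL n1 j3
    have := hi p
    rcases nb p hp k with rfl | rfl | rfl <;> rcases nb q hq l with rfl | rfl | rfl <;> first | assumption | contradiction
  have k1 : ∀ p ∈ W, ∀ q ∈ W, ∀ r ∈ W, A v p → A v q → A v r → Tg A p q r →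
      Q (ν p q) (ν r v) r v ∧ Q (ν r v) (ν p q) p q := fun p hp q hq r hr k l m n => by
    have := hi p
    have := hi q
    have := n1 x y
    have := n1 y z
    have := n1 z x
    unfold Tg Q at *
    rcases nb p hp k with rfl | rfl | rfl <;> rcases nb q hq l with rfl | rfl | rfl <;>
      rcases nb r hr m with rfl | rfl | rfl <;> grind
  refine ⟨ν, n1, fun p hp q hq r hr k => ?_, fun p hp q hq r hr s hs' k l m n => ?_, fun p hp q hq r hr u hu k l m n => ?_⟩ <;>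
    simp only [Finset.mem_insert] at *
  · obtain ⟨k, l, m⟩ := k
    rcases hp with rfl | hp <;> rcases hq with rfl | hq <;> rcases hr with rfl | hr <;> try exact (hi _ ‹_›).elim
    · exact in_rot hL (in_rot hL (j q hq r hr k (hs _ _ m) l))
    · exact in_rot hL (j r hr p hp l (hs _ _ k) m)
    · exact j p hp q hq m (hs _ _ l) k
    · rw [In, n2 p hp q hq, n2 q hq r hr, n2 r hr p hp]
      exact h.tri p hp q hq r hr ⟨k, l, m⟩
  · obtain ⟨k, k', k''⟩ := k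
    rcases hp with rfl | hp <;> rcases hq with rfl | hq <;> rcases hr with rfl | hr <;> rcases hs' with rfl | hs' <;>
      try exact (hi _ ‹_›).elim
    · rw [n1 p q]; exact (k1 r hr s hs' q hq (hs _ _ k'') l k ⟨n, hs _ _ m, k'⟩).2
    · exact (k1 r hr s hs' p hp k' m (hs _ _ k) ⟨n, hs _ _ l, hs _ _ k''⟩).2
    · have := (k1 p hp q hq s hs' k'' (hs _ _ k') n ⟨k, m, hs _ _ l⟩).1
      rw [n1 r s]; exact fun i j => this j i
    · exact (k1 p hp q hq r hr (hs _ _ l) (hs _ _ m) (hs _ _ n) ⟨k, k', k''⟩).1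
    · rw [n2 p hp q hq, n2 r hr s hs']
      exact h.k4 p hp q hq r hr s hs' ⟨k, k', k''⟩ l m n
  · have old : ∀ p ∈ W, ∀ q ∈ W, A v p → A v q → A p q → ∀ u ∈ W, u ≠ p → u ≠ q →
        ∃ c ∈ W, A p c ∧ A q c ∧ A v c ∧ Pth A (fun s => s = v ∨ s ∈ W) p q v c u := fun p hp q hq k l m u hu i j => by
      obtain ⟨r, hr, r1, r2, r3⟩ : ∃ r ∈ W, A p r ∧ A q r ∧ A v r := by
        have := hi p
        obtain ⟨t1, t2, t3⟩ := t
        have := hs _ _ t1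
        have := hs _ _ t2
        have := hs _ _ t3
        have := hs _ _ a
        have := hs _ _ b
        have := hs _ _ c
        rcases nb p hp k with rfl | rfl | rfl <;> rcases nb q hq l with rfl | rfl | rfl <;>
          first | contradiction | exact ⟨_, hx, ‹_›, ‹_›, ‹_›⟩ | exact ⟨_, hy, ‹_›, ‹_›, ‹_›⟩ | exact ⟨_, hz, ‹_›, ‹_›, ‹_›⟩
      refine ⟨r, hr, r1, r2, r3, ?_⟩
      by_cases e : u = r
      · exact e ▸ .refl
      · obtain ⟨c', c1, c2, c3, c4, c5⟩ := h.pth p hp q hq r hr u hu ⟨m, r2, hs _ _ r1⟩ i j e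
        exact .head ⟨c4, .inr c1, by have := hi p; have := hi q; grind⟩ (c5.mono (by grind))
    obtain ⟨k, k', k''⟩ := k
    rcases hp with rfl | hp <;> rcases hq with rfl | hq <;> rcases hr with rfl | hr <;> try exact (hi _ ‹_›).elim
    · obtain ⟨c', c1, c2, c3, c4, c5⟩ := old q hq r hr k (hs _ _ k'') k' u (hu.resolve_left l) m n
      exact ⟨c', .inr c1, c4, c2, c3, c5.mono (by grind)⟩
    · obtain ⟨c', c1, c2, c3, c4, c5⟩ := old p hp r hr (hs _ _ k) k' (hs _ _ k'') u (hu.resolve_left m) l n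
      exact ⟨c', .inr c1, c2, c4, c3, c5.mono (by grind)⟩
    · obtain ⟨c', c1, c2, c3, c4, c5⟩ := old p hp q hq k'' (hs _ _ k') k u (hu.resolve_left n) l m
      exact ⟨c', .inr c1, c2, c3, c4, c5.mono (by grind)⟩
    · rcases hu with rfl | hu
      · by_cases e : ∀ s, s = x ∨ s = y ∨ s = z → s = p ∨ s = q ∨ s = r
        · have := e x (.inl rfl)
          have := e y (.inr (.inl rfl))
          have := e z (.inr (.inr rfl))
          have : A p u ∧ A q u ∧ A r u := by clear old k1 j n1 n2 e nb; grind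
          exact ⟨u, .inl rfl, this.1, this.2.1, this.2.2, .refl⟩
        · push Not at e
          obtain ⟨s, s1, s2, s3, s4⟩ := e
          obtain ⟨c', c1, c2, c3, c4, c5⟩ := h.pth p hp q hq r hr s (by grind) ⟨k, k', k''⟩ s2 s3 s4
          exact ⟨c', .inr c1, c2, c3, c4, .tail (c5.mono (by grind)) ⟨by grind, .inl rfl, l, m, n⟩⟩
      · obtain ⟨c', c1, c2, c3, c4, c5⟩ := h.pth p hp q hq r hr u hu ⟨k, k', k''⟩ l m n
        exact ⟨c', .inr c1, c2, c3, c4, c5.mono (by grind)⟩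

theorem grow (g : Gd A R) (hL : ∀ t ∈ L, Rl A R K L t) {x y z a b c} (h : ((x, y, z), a, b, c) ∈ L) :
    ∃ W μ, x ∈ W ∧ y ∈ W ∧ z ∈ W ∧ Iv A L W μ ∧ Cl A W := by
  classical
  have hs := g.sym
  have hi := g.irr
  obtain ⟨t1, t2, t3⟩ : Tg A x y z := (hL _ h).1
  have : ∃ μ, Iv A L {x, y, z} μ := by
    obtain ⟨ν, n1, rfl, rfl, rfl⟩ : ∃ ν : ℕ → ℕ → List ℕ, (∀ p q, ν p q = ν q p) ∧ ν x y = a ∧ ν y z = b ∧ ν z x = c :=
      ⟨fun p q => if p ≠ z ∧ q ≠ z then a else if p ≠ x ∧ q ≠ x then b else c, by grind, by grind, by grind, by grind⟩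
    have i1 : In L ν x y z := h
    have i2 := in_rot hL i1
    have i3 := in_rot hL i2
    have i4 := in_swap hL n1 i1
    have i5 := in_swap hL n1 i2
    have i6 := in_swap hL n1 i3
    refine ⟨ν, n1, ?_, ?_, ?_⟩ <;> unfold Tg <;> simp only [Finset.mem_insert, Finset.mem_singleton] <;> grind
  obtain ⟨W, h1, h2⟩ := (R.toFinset.powerset.filter fun W => x ∈ W ∧ y ∈ W ∧ z ∈ W ∧ ∃ μ, Iv A L W μ).exists_max_image
    Finset.card ⟨{x, y, z}, by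
      have := g.mem _ _ t1; have := g.mem _ _ t2; have := g.mem _ _ t3
      simp [Finset.subset_iff, *]⟩
  simp only [Finset.mem_filter, Finset.mem_powerset] at h1 h2
  obtain ⟨h0, hx, hy, hz, μ, hμ⟩ := h1
  refine ⟨W, μ, hx, hy, hz, hμ, fun p hp q hq r hr v t i j k => by_contra fun hv => ?_⟩
  have := h2 (insert v W) ⟨Finset.insert_subset (by simpa using g.mem _ _ (hs _ _ i)) h0, by simp [hx], by simp [hy],
    by simp [hz], hμ.ext g hL hp hq hr t i j k hv⟩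
  rw [Finset.card_insert_of_notMem hv] at this
  omega

theorem sol_of (g : Gd A R) (hL : ∀ t ∈ L, Rl A R K L t) (hc : ∀ x y z, Tg A x y z → ∃ t ∈ L, t.1 = (x, y, z)) :
    ∃ M, Sol A M := by
  classical
  have hs := g.sym
  have hi := g.irr
  let key (x y z : ℕ) : Set (Finset ℕ) := {W | Cl A W ∧ x ∈ W ∧ y ∈ W ∧ z ∈ W}
  let key2 (x y : ℕ) : Set (Finset ℕ) := {W | Cl A W ∧ x ∈ W ∧ y ∈ W ∧ ∀ s, Lk A x y s → s ∈ W}
  obtain ⟨ν, hν⟩ : ∃ ν : Set (Finset ℕ) → ℕ → ℕ → List ℕ, ∀ κ, (∃ W ∈ κ, ∃ μ, Iv A L W μ) → ∃ W ∈ κ, Iv A L W (ν κ) := by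
    refine Classical.skolem (p := fun (κ : Set (Finset ℕ)) μ => (∃ W ∈ κ, ∃ μ, Iv A L W μ) → ∃ W ∈ κ, Iv A L W μ).1
      fun κ => ?_
    by_cases e : ∃ W ∈ κ, ∃ μ, Iv A L W μ
    · obtain ⟨W, a, μ, b⟩ := e
      exact ⟨μ, fun _ => ⟨W, a, b⟩⟩
    · exact ⟨fun _ _ => [], fun k => absurd k e⟩
  have h1 : ∀ x y z, Tg A x y z → ∃ W ∈ key x y z, Iv A L W (ν (key x y z)) := fun x y z t => by
    obtain ⟨⟨_, a, b, c⟩, i, rfl⟩ := hc x y z t
    obtain ⟨W, μ, a, b, c, d, e⟩ := grow g hL i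
    exact hν _ ⟨W, ⟨e, a, b, c⟩, μ, d⟩
  have h2 : ∀ x y s, A x y → Cn A R x y → Lk A x y s → key2 x y = key x y s := fun x y s a ⟨p, _, p1, p2⟩ b => by
    refine Set.ext fun W => ⟨fun k => ⟨k.1, k.2.1, k.2.2.1, k.2.2.2 s b⟩, fun ⟨k, i, j, l⟩ => ⟨k, i, j, fun r c => ?_⟩⟩
    have st : ∀ s r, Lk A x y s → Lk A x y r → A s r → s ∈ W → r ∈ W := fun s r b c d e =>
      k x i y j s e r ⟨a, b.2, hs _ _ b.1⟩ c.1 c.2 d
    have : p ∈ W := by have := p2 s (g.mem _ _ (hs _ _ b.1)) b; grind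
    have := p2 r (g.mem _ _ (hs _ _ c.1)) c
    grind
  have cs : ∀ x y, Cn A R x y → Cn A R y x := fun x y => by simp only [Cn, Lk, and_comm]; exact id
  have ks : ∀ x y, key2 x y = key2 y x := fun x y => by ext; simp only [key2, Lk, Set.mem_ofPred_eq]; grind
  let M (x y : ℕ) : Set ℕ := if Cn A R x y then {v | v ∈ ν (key2 x y) x y} else {x, y}
  have h3 : ∀ x y z κ W, Tg A x y z → key x y z = κ → W ∈ κ → Iv A L W (ν κ) → M x y = {v | v ∈ ν κ x y} := by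
    rintro x y z _ W t rfl ⟨-, a, b, c⟩ h
    simp only [M]
    split_ifs with e
    · rw [h2 x y z t.1 e ⟨hs _ _ t.2.2, t.2.1⟩]
    · have i := (hL _ (h.tri x a y b z c t)).2.1
      have j := (hL _ (in_swap hL h.sym (h.tri x a y b z c t))).2.1.1
      rw [h.sym] at j
      have := i.1
      have := i.2.2.resolve_left e
      ext; simp; grind
  have ms : ∀ x y, A x y → M x y = M y x := fun x y a => by
    simp only [M]
    by_cases e : Cn A R x y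
    · obtain ⟨p, -, p1, -⟩ := id e
      obtain ⟨W, -, h⟩ := h1 x y p ⟨a, p1.2, hs _ _ p1.1⟩
      rw [if_pos e, if_pos (cs _ _ e), ← ks x y, h2 x y p a e p1, h.sym]
    · rw [if_neg e, if_neg fun k => e (cs _ _ k), Set.pair_comm]
  have h4 : ∀ x y q, Tg A x y q → q ∈ M x y → M y q ⊆ M x y := fun x y z t => by
    obtain ⟨W, a, h⟩ := h1 x y z t
    rw [h3 x y z _ W t rfl a h, h3 y z x _ W ⟨t.2.1, t.2.2, t.1⟩ (by ext; simp only [key, Set.mem_ofPred_eq]; tauto) a h]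
    exact fun k => (hL _ (h.tri x a.2.1 y a.2.2.1 z a.2.2.2 t)).2.2.1 k k
  refine ⟨M, ms, fun x y a => ?_, fun x y p q a b c d => ?_, fun x y z a b c => ?_⟩
  · by_cases e : Cn A R x y
    · obtain ⟨p, -, p1, -⟩ := id e
      obtain ⟨W, i, h⟩ := h1 x y p ⟨a, p1.2, hs _ _ p1.1⟩
      rw [h3 x y p _ W ⟨a, p1.2, hs _ _ p1.1⟩ rfl i h]
      exact (hL _ (h.tri x i.2.1 y i.2.2.1 p i.2.2.2 ⟨a, p1.2, hs _ _ p1.1⟩)).2.1.1
    · simp [M, e]
  · by_cases e : Cn A R x y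
    · obtain ⟨s, -, s1, -⟩ := id e
      have t : Tg A x y s := ⟨a, s1.2, hs _ _ s1.1⟩
      obtain ⟨W, i, h⟩ := h1 x y s t
      have e1 := h3 x y s _ W t rfl i h
      have j := (hL _ (h.tri x i.2.1 y i.2.2.1 s i.2.2.2 t)).2.1
      have j' := (hL _ (in_swap hL h.sym (h.tri x i.2.1 y i.2.2.1 s i.2.2.2 t))).2.1.1
      rw [h.sym] at j'
      have cq : ∀ p ∈ M x y, ∀ q ∈ M x y, p = q ∨ A p q := by rw [e1]; exact j.2.1
      have hx : x ∈ M x y := by rw [e1]; exact j.1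
      have hy : y ∈ M x y := by rw [e1]; exact j'
      have pq := (cq p b q c).resolve_left d
      have sb : ∀ q ∈ M x y, (A x q → M x q ⊆ M x y) ∧ (A y q → M y q ⊆ M x y) := fun q c => by
        by_cases e1 : q = x
        · exact ⟨fun k => (hi _ (e1 ▸ k)).elim, fun _ => by rw [e1, ms x y a]⟩
        by_cases e2 : q = y
        · exact ⟨fun _ => by rw [e2], fun k => (hi _ (e2 ▸ k)).elim⟩
        have i := (cq x hx q c).resolve_left (Ne.symm e1)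
        have j := (cq y hy q c).resolve_left (Ne.symm e2)
        exact ⟨fun _ => ms x y a ▸ h4 y x q ⟨hs _ _ a, i, hs _ _ j⟩ (ms x y a ▸ c), fun _ => h4 x y q ⟨a, j, hs _ _ i⟩ c⟩
      refine ⟨pq, ?_⟩
      by_cases e1 : p = x ∨ p = y
      · rcases e1 with rfl | rfl
        exacts [(sb q c).1 pq, (sb q c).2 pq]
      by_cases e2 : q = x ∨ q = y
      · rw [ms p q pq]
        rcases e2 with rfl | rfl
        exacts [(sb p b).1 (hs _ _ pq), (sb p b).2 (hs _ _ pq)]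
      have x1 := (cq x hx p b).resolve_left (by grind)
      have x2 := (cq y hy p b).resolve_left (by grind)
      have x3 := (cq x hx q c).resolve_left (by grind)
      have x4 := (cq y hy q c).resolve_left (by grind)
      have t' : Tg A x y p := ⟨a, x2, hs _ _ x1⟩
      obtain ⟨W, i, h⟩ := h1 x y p t'
      have e3 := h3 x y p _ W t' rfl i h
      have ek : key p q x = key x y p := Set.ext fun W => ⟨fun ⟨k, l, m, n⟩ => ⟨k, n, k p l q m x n y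
        ⟨pq, hs _ _ x3, x1⟩ (hs _ _ x2) (hs _ _ x4) a, l⟩, fun ⟨k, l, m, n⟩ => ⟨k, n, k x l y m p n q t' x3 x4 pq, l⟩⟩
      rw [h3 p q x _ W ⟨pq, hs _ _ x3, x1⟩ ek i h]
      rw [e3] at b c ⊢
      exact h.k4 x i.2.1 y i.2.2.1 p i.2.2.2 q (i.1 x i.2.1 y i.2.2.1 p i.2.2.2 q t' x3 x4 pq) t' x3 x4 pq b c
    · have : M x y = {x, y} := if_neg e
      rw [this] at b c
      rcases b with rfl | rfl <;> rcases c with rfl | rfl
      · exact absurd rfl d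
      · exact ⟨a, le_rfl⟩
      · exact ⟨hs _ _ a, (ms _ _ a).ge⟩
      · exact absurd rfl d
  · obtain ⟨W, i, h⟩ := h1 x y z ⟨a, b, c⟩
    rw [h3 x y z _ W ⟨a, b, c⟩ rfl i h, h3 y z x _ W ⟨b, c, a⟩ (by ext; simp only [key, Set.mem_ofPred_eq]; tauto) i h,
      h3 z x y _ W ⟨c, a, b⟩ (by ext; simp only [key, Set.mem_ofPred_eq]; tauto) i h]
    exact (hL _ (h.tri x i.2.1 y i.2.2.1 z i.2.2.2 ⟨a, b, c⟩)).2.2.2.1

theorem of_sol (g : Gd A R) (hK : ∀ l : List ℕ, l.length ≤ 4 → (∀ x ∈ l, x ∈ R) → l ∈ K) {M} (h : Sol A M) {U : List Tp}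
    (hU : ∀ t : Tp, t.1.1 ∈ R → t.1.2.1 ∈ R → t.1.2.2 ∈ R → t.2.1 ∈ K → t.2.2.1 ∈ K → t.2.2.2 ∈ K → t ∈ U) :
    ∃ L ⊆ U, (∀ t ∈ L, Rl A R K L t) ∧ ∀ x y z, Tg A x y z → ∃ t ∈ L, t.1 = (x, y, z) := by
  classical
  have hs := g.sym
  have hi := g.irr
  have hy : ∀ x y, A x y → y ∈ M x y := fun x y a => h.sym _ _ a ▸ h.mem _ _ (hs _ _ a)
  have cq : ∀ x y, A x y → ∀ p ∈ M x y, ∀ q ∈ M x y, p = q ∨ A p q := fun x y a p b q c =>
    or_iff_not_imp_left.2 fun d => (h.cl _ _ _ _ a b c d).1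
  obtain ⟨τ, t1, t2, t3⟩ : ∃ τ : ℕ → ℕ → List ℕ, (∀ x y, A x y → τ x y = τ y x) ∧
      (∀ x y, A x y → ∀ v, v ∈ τ x y ↔ v ∈ M x y) ∧ ∀ x y, A x y → τ x y ∈ K := by
    refine ⟨fun x y => R.dedup.filter (· ∈ M x y), fun x y a => by simp only [h.sym _ _ a], fun x y a v => ?_,
      fun x y a => hK _ ?_ (by simp +contextual)⟩
    · have := cq x y a v
      have := g.mem v x
      have := g.mem x y a
      have := h.mem x y a
      simp; grind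
    · have i := (List.nodup_dedup R).filter (· ∈ M x y)
      have j : ∀ p ∈ R.dedup.filter (· ∈ M x y), p ∈ M x y := by simp
      beta_reduce
      generalize List.filter _ _ = l at i j
      by_contra! k
      match l, i, j, k with
      | p :: q :: r :: s :: u :: _, i, j, _ =>
        have c : ∀ p q, p ∈ M x y → q ∈ M x y → p ≠ q → A p q := fun p q b c d => (h.cl _ _ _ _ a b c d).1
        simp only [List.nodup_cons, List.mem_cons, not_or, forall_eq_or_imp] at i j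
        exact g.sep p q r s u s ⟨by grind, by grind, by grind⟩ (by grind) (by grind) (by grind) (by grind) (by grind)
          (by grind) (by grind) .refl (by grind)
  have mem : ∀ t, t ∈ U.filter (fun t : Tp => Tg A t.1.1 t.1.2.1 t.1.2.2 ∧ t.2 = (τ t.1.1 t.1.2.1, τ t.1.2.1 t.1.2.2, τ t.1.2.2 t.1.1)) ↔
      Tg A t.1.1 t.1.2.1 t.1.2.2 ∧ t.2 = (τ t.1.1 t.1.2.1, τ t.1.2.1 t.1.2.2, τ t.1.2.2 t.1.1) := fun t => by
    simp only [List.mem_filter, decide_eq_true_eq, and_iff_right_iff_imp]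
    rintro ⟨⟨a, b, c⟩, e⟩
    exact hU t (g.mem _ _ a) (g.mem _ _ b) (g.mem _ _ c) (e ▸ t3 _ _ a) (e ▸ t3 _ _ b) (e ▸ t3 _ _ c)
  refine ⟨_, List.filter_subset_self _, ?_, fun x y z t => ⟨((x, y, z), τ x y, τ y z, τ z x), (mem _).2 ⟨t, rfl⟩, rfl⟩⟩
  generalize List.filter _ _ = L at mem
  have q : ∀ x y z w, A x y → A z w → Q (τ x y) (τ z w) z w := fun x y z w a b i j p k => by
    rw [t2 _ _ a] at *
    exact (h.cl _ _ _ _ a i j (by grind)).2 ((t2 _ _ b _).1 k)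
  rintro ⟨⟨x, y, z⟩, t⟩ ht
  obtain ⟨⟨a, b, c⟩, e⟩ := (mem _).1 ht
  dsimp only at a b c e
  subst e
  simp only [Rl, E1, mem, t2 _ _ a, t2 _ _ b, t2 _ _ c]
  refine ⟨⟨a, b, c⟩, ⟨h.mem _ _ a, cq _ _ a, or_iff_not_imp_right.2 fun k => ?_⟩,
    fun i _ => q x y y z a b ((t2 _ _ a _).2 (hy _ _ a)) i, h.tri _ _ _ a b c, ⟨⟨b, c, a⟩, trivial⟩,
    ⟨⟨hs _ _ a, hs _ _ c, hs _ _ b⟩, by rw [t1 _ _ a, t1 _ _ b, t1 _ _ c]⟩, fun w _ i j k => ⟨_, t3 _ _ i, _, t3 _ _ j, _, t3 _ _ k,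
    ⟨⟨a, j, hs _ _ i⟩, by rw [t1 _ _ i]⟩, ⟨⟨b, k, hs _ _ j⟩, by rw [t1 _ _ j]⟩, ⟨⟨c, i, hs _ _ k⟩, by rw [t1 _ _ k]⟩,
    q _ _ _ _ a k, q _ _ _ _ k a, q _ _ _ _ b i, q _ _ _ _ i b, q _ _ _ _ c j, q _ _ _ _ j c⟩⟩
  push Not at k
  obtain ⟨p, p1, p2, p3⟩ := k
  have i := (cq _ _ a x (h.mem _ _ a) p p1).resolve_left p2.symm
  have j := (cq _ _ a y (hy _ _ a) p p1).resolve_left p3.symm
  refine ⟨p, g.mem _ _ (hs _ _ i), ⟨i, j⟩, fun s _ ⟨l, m⟩ => ?_⟩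
  obtain ⟨r, r1, r2, r3⟩ := h.tri x y s a m (hs _ _ l)
  have s1 := hy _ _ m
  have s2 := h.mem _ _ (hs _ _ l)
  by_cases e : r = x
  · have := (h.cl y s y x m (h.mem _ _ m) (e ▸ r2) (by grind)).2 (h.sym _ _ a ▸ p1)
    have := cq _ _ m s s1 p this
    tauto
  by_cases e' : r = y
  · have := (h.cl s x x y (hs _ _ l) (hy _ _ (hs _ _ l)) (e' ▸ r3) (by grind)).2 p1
    have := cq _ _ (hs _ _ l) s s2 p this
    tauto
  have := cq _ _ a r r1 p p1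
  have := cq _ _ m s s1 r r2
  have i' := (cq _ _ a x (h.mem _ _ a) r r1).resolve_left (Ne.symm e)
  have j' := (cq _ _ a y (hy _ _ a) r r1).resolve_left (Ne.symm e')
  have := g.mem _ _ (hs _ _ i')
  unfold Lk; grind

end Pool.Agent.H.MP_8f2c22_lc
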