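import Pool.Agent.H.MP_8f2c22_lc.B
import Pool.Agent.Lib.lead.CXNP

namespace Pool.Agent.H.MP_8f2c22_lc

open Classical Relation Pool.Agent.Lib.CX

def allL {α : Type} : ℕ → List α → List (List α)
  | 0, _ => [[]]
  | n + 1, U => [] :: (U ×ˢ allL n U).map fun p => p.1 :: p.2

theorem mem_allL {α : Type} {n} {U l : List α} : l ∈ allL n U ↔ l.length ≤ n ∧ ∀ x ∈ l, x ∈ U := by
  induction n generalizing l with
  | zero => cases l <;> simp [allL]
  | succ n ih => cases l <;> simp [allL, ih]; tauto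

section
variable {α β : Type} [Enc α] [Enc β] {p q : α → Prop}

@[fun_prop] theorem pt_allL (n) {U : α → List β} (h : PT U) : PT fun a => allL n (U a) := by
  induction n with
  | zero => exact .const _
  | succ n ih => unfold allL; fun_prop

theorem pt (h : InP p) : PT fun a => decide (p a) := by
  obtain ⟨f, a, b⟩ := h; exact a.congr fun a => by simp [b]
theorem i_and (h : InP p) (g : InP q) : InP fun a => p a ∧ q a := .of_decide (i := fun _ => inferInstance) ((pt h).decide_and (pt g))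
theorem i_or (h : InP p) (g : InP q) : InP fun a => p a ∨ q a := .of_decide (i := fun _ => inferInstance) ((pt h).decide_or (pt g))
theorem i_not (h : InP p) : InP fun a => ¬ p a := .of_decide (i := fun _ => inferInstance) (pt h).decide_not
theorem i_imp (h : InP p) (g : InP q) : InP fun a => p a → q a := (i_or (i_not h) g).of_iff fun _ => imp_iff_not_or
theorem i_all {P : α → β → Prop} {l : α → List β} (h : InP fun p : α × β => P p.1 p.2) (g : PT l) :
    InP fun a => ∀ x ∈ l a, P a x := .of_decide (i := fun _ => inferInstance) ((pt h).decide_forall g)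
theorem i_ex {P : α → β → Prop} {l : α → List β} (h : InP fun p : α × β => P p.1 p.2) (g : PT l) :
    InP fun a => ∃ x ∈ l a, P a x := .of_decide (i := fun _ => inferInstance) ((pt h).decide_exists g)
theorem i_eq {f g : α → β} (h : PT f) (k : PT g) : InP fun a => f a = g a := .of_decide (i := fun _ => inferInstance) (h.decide_eq k)
theorem i_mem {f : α → β} {g : α → List β} (h : PT f) (k : PT g) : InP fun a => f a ∈ g a :=
  .of_decide (i := fun _ => inferInstance) (h.decide_mem k)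

theorem gfp {P : α → List β → β → Prop} {U : α → List β} (hP : InP fun p : (α × List β) × β => P p.1.1 p.1.2 p.2)
    (mono : ∀ a L L' t, L ⊆ L' → P a L t → P a L' t) (hU : PT U) :
    ∃ G, PT G ∧ ∀ a, (∀ t ∈ G a, P a (G a) t) ∧ ∀ L ⊆ U a, (∀ t ∈ L, P a L t) → L ⊆ G a := by
  let F (a : α) (L : List β) := L.filter fun t => P a L t
  have sb : ∀ a k, ((F a)^[k] (U a)).Sublist (U a) := fun a k => by
    induction k with
    | zero => exact .refl _
    | succ k ih => rw [Function.iterate_succ_apply']; exact List.filter_sublist.trans ih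
  refine ⟨fun a => (F a)^[(U a).length] (U a), PT.iterate (B := fun a => size (U a)) ((pt hP).filter PT.snd') hU
    (by fun_prop) (by fun_prop) (by fun_prop) fun a k _ => size_sublist (sb a k), fun a => ⟨?_, fun L h1 h2 => ?_⟩⟩
  · have : ∀ k, (∀ t ∈ (F a)^[k] (U a), P a ((F a)^[k] (U a)) t) ∨ ((F a)^[k] (U a)).length + k ≤ (U a).length := fun k => by
      induction k with
      | zero => simp
      | succ k ih =>
        rw [Function.iterate_succ_apply']
        generalize (F a)^[k] (U a) = L at *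
        by_cases e : ∀ t ∈ L, P a L t
        · rw [show F a L = L from List.filter_eq_self.2 (by simpa using e)]; exact .inl e
        · have : (F a L).length < L.length := List.length_filter_lt_length_iff_exists.2 (by simpa using e)
          exact .inr (by have := ih.resolve_left e; omega)
    refine (this _).elim id fun k t ht => ?_
    have := List.length_pos_of_mem ht
    beta_reduce at this
    omega
  · beta_reduce
    induction (U a).length with
    | zero => exact h1
    | succ k ih =>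
      rw [Function.iterate_succ_apply']
      exact fun t ht => List.mem_filter.2 ⟨ih ht, by simpa using mono _ _ _ _ ih (h2 t ht)⟩
end

def Rg (a : Gr) : List ℕ := List.range a.1.length
def Ad (a : Gr) (u v : ℕ) : Prop := u ∈ Rg a ∧ v ∈ Rg a ∧ ¬ u = v ∧ ((u, v) ∈ a.2 ∨ (v, u) ∈ a.2)
theorem ad_iff (a : Gr) (u v : Fin a.n) : Ad a u v ↔ a.G.Adj u v := by simp [Ad, Rg, Gr.G, Fin.ext_iff]
theorem ad_lt {a u v} (h : Ad a u v) : u < a.n ∧ v < a.n := ⟨List.mem_range.1 h.1, List.mem_range.1 h.2.1⟩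

theorem gd {a : Gr} (h : ¬ K5Minor a.G) : Gd (Ad a) (Rg a) := by
  have hs : ∀ u v, Ad a u v → Ad a v u := by unfold Ad; grind
  have hi : ∀ u, ¬ Ad a u u := by simp [Ad]
  refine ⟨hs, hi, fun _ _ k => k.1, fun x y z c v u ⟨t1, t2, t3⟩ a1 a2 a3 b1 b2 b3 ne p k => h ?_⟩
  lift x to Fin a.n using (ad_lt t1).1
  lift y to Fin a.n using (ad_lt t2).1
  lift z to Fin a.n using (ad_lt t3).1
  lift c to Fin a.n using (ad_lt a1).2
  lift v to Fin a.n using (ad_lt k).1
  lift u to Fin a.n using (ad_lt k).2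
  let B : Set (Fin a.n) := {w | Pth (Ad a) (· ≠ v.1) x y z c w}
  have hc : c ∈ B := .refl
  have hu : u ∈ B := p
  have hB : ∀ w ∈ B, w ≠ x ∧ w ≠ y ∧ w ≠ z ∧ w ≠ v := fun w hw => by
    have := hi c
    rcases ReflTransGen.cases_tail hw with e | ⟨_, -, e⟩ <;> grind
  have cB : (a.G.induce B).Connected := by
    have : ∀ w, Pth (Ad a) (· ≠ v.1) x y z c w → ∀ w' : B, w'.1.1 = w → (a.G.induce B).Reachable ⟨c, hc⟩ w' := fun w k => by
      induction k with
      | refl => rintro w' e; obtain rfl : w' = ⟨c, hc⟩ := Subtype.ext (Fin.ext e); rfl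
      | tail i j ih =>
        rintro w' rfl
        exact (ih ⟨⟨_, (ad_lt j.1).1⟩, i⟩ rfl).trans (SimpleGraph.Adj.reachable ((ad_iff _ _ _).1 j.1))
    exact (SimpleGraph.connected_iff_exists_forall_reachable _).2 ⟨⟨c, hc⟩, fun w => this _ w.2 w rfl⟩
  have c1 : ∀ w, (a.G.induce {w}).Connected := fun w =>
    (SimpleGraph.connected_iff_exists_forall_reachable _).2 ⟨⟨w, rfl⟩, fun ⟨_, rfl⟩ => .refl _⟩
  rw [ad_iff] at t1 t2 t3 a1 a2 a3 b1 b2 b3 k
  refine ⟨![{x}, {y}, {z}, {v}, B], fun i => by fin_cases i <;> first | exact c1 _ | exact cB, fun i j ij => ?_⟩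
  have := t1.ne; have := t2.ne; have := t3.ne; have := b1.ne; have := b2.ne; have := b3.ne
  have := t1.symm; have := t2.symm; have := t3.symm; have := b1.symm; have := b2.symm; have := b3.symm
  have := a1.symm; have := a2.symm; have := a3.symm; have := k.symm
  have := hB x; have := hB y; have := hB z; have := hB v
  fin_cases i <;> fin_cases j <;> simp at ij ⊢ <;> grind

theorem main : InP fun a : {a : Gr // ¬ K5Minor a.G} => IsCliqueGraph a.1.G := by
  have hR : PT Rg := by unfold Rg; fun_prop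
  obtain ⟨G, h1, h2⟩ := gfp (P := fun a : Gr => Rl (Ad a) (Rg a) (allL 4 (Rg a)))
    (U := fun a => (Rg a ×ˢ Rg a ×ˢ Rg a) ×ˢ allL 4 (Rg a) ×ˢ allL 4 (Rg a) ×ˢ allL 4 (Rg a))
    (by
      unfold Rl Tg E1 Q Cn Lk Ad
      repeat' first | apply i_and | apply i_or | apply i_not | apply i_ex | apply i_all | apply i_imp | apply i_eq | apply i_mem | fun_prop)
    (fun a L L' t s ⟨a1, a2, a3, a4, a5, a6, a7⟩ => ⟨a1, a2, a3, a4, s a5, s a6, fun w b1 b2 b3 b4 => by
      obtain ⟨d, c1, e, c2, f, c3, c4, c5, c6, c7⟩ := a7 w b1 b2 b3 b4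
      exact ⟨d, c1, e, c2, f, c3, s c4, s c5, s c6, c7⟩⟩) (by fun_prop)
  refine InP.of_iff (B := fun a => 0 ∈ Rg a.1 ∧ ∀ x ∈ Rg a.1, ∀ y ∈ Rg a.1, ∀ z ∈ Rg a.1, Tg (Ad a.1) x y z →
    ∃ t ∈ G a.1, t.1 = (x, y, z)) ?_ fun ⟨a, ha⟩ => ?_
  · unfold Tg Ad
    repeat' first | apply i_and | apply i_or | apply i_not | apply i_ex | apply i_all | apply i_imp | apply i_eq | apply i_mem | fun_prop
  have g := gd ha
  have e := sol_iff (A := a.G.Adj) (A' := Ad a) Fin.val_injective (ad_iff a)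
    fun u v k => ⟨⟨⟨u, (ad_lt k).1⟩, rfl⟩, ⟨v, (ad_lt k).2⟩, rfl⟩
  refine ⟨fun h => ?_, fun ⟨h0, h⟩ => ?_⟩
  · obtain ⟨⟨v⟩, h⟩ := rs1 h
    obtain ⟨M, h⟩ := e.1 h
    obtain ⟨L, i, j, k⟩ := of_sol g (K := allL 4 (Rg a)) (fun l x y => mem_allL.2 ⟨x, y⟩) h
      (U := (Rg a ×ˢ Rg a ×ˢ Rg a) ×ˢ allL 4 (Rg a) ×ˢ allL 4 (Rg a) ×ˢ allL 4 (Rg a)) fun t => by
        obtain ⟨⟨x, y, z⟩, b, c, d⟩ := t
        simp +contextual
    refine ⟨List.mem_range.2 v.pos, fun x _ y _ z _ t => ?_⟩
    obtain ⟨s, l, m⟩ := k x y z t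
    exact ⟨s, (h2 a).2 L i j l, m⟩
  · have : Nonempty (Fin a.n) := ⟨⟨0, List.mem_range.1 h0⟩⟩
    obtain ⟨M, k⟩ := e.2 (sol_of g (h2 a).1 fun x y z t => h x t.1.1 y t.2.1.1 z t.2.2.1 t)
    exact rs2 k

end Pool.Agent.H.MP_8f2c22_lc
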