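import Pool.Agent.Lib.lead.CXGraph

namespace Pool.Agent.H.MP_8f2c22_lc

/-- the clique graph: intersection graph of the maximal complete sets -/
def cliqueGraph {W : Type} (G : SimpleGraph W) : SimpleGraph {S : Set W // Maximal G.IsClique S} :=
  SimpleGraph.fromRel fun S T => (S.1 ∩ T.1).Nonempty

/-- `H` is isomorphic to the clique graph of a finite graph -/
def IsCliqueGraph {V : Type} (H : SimpleGraph V) : Prop :=
  ∃ (W : Type) (_ : Finite W) (G : SimpleGraph W), Nonempty (H ≃g cliqueGraph G)

/-- `H` has a `K₅` minor: five disjoint connected branch sets, pairwise joined by an edge -/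
def K5Minor {V : Type} (H : SimpleGraph V) : Prop :=
  ∃ f : Fin 5 → Set V, (∀ i, (H.induce (f i)).Connected) ∧
    Pairwise fun i j => Disjoint (f i) (f j) ∧ ∃ u ∈ f i, ∃ v ∈ f j, H.Adj u v

end Pool.Agent.H.MP_8f2c22_lc
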